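import Mathlib

set_option autoImplicit false

namespace Pool.Agent.Results.MP_102303_co.RealPOT

open Finset Matrix

/-- The Schur power matrix: rows and columns indexed by permutations. -/
def schurPower {n : ℕ} (A : Matrix (Fin n) (Fin n) ℝ) :
    Matrix (Equiv.Perm (Fin n)) (Equiv.Perm (Fin n)) ℝ :=
  Matrix.of fun σ τ => ∏ i, A (σ i) (τ i)

section
variable {ι : Type} [Fintype ι] [DecidableEq ι]

theorem ryser (u : Matrix ι ι ℤ) :
    u.permanent = ∑ S ∈ (univ : Finset ι).powerset, (-1) ^ Sᶜ.card * ∏ t, ∑ i ∈ S, u i t := by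
  have h1 : ∀ S : Finset ι, (-1) ^ Sᶜ.card * ∏ t, ∑ i ∈ S, u i t =
      ∑ f : ι → ι, (∏ t, u (f t) t) *
        ((∏ _i ∈ S, (1 : ℤ)) * ∏ i ∈ univ \ S, if i ∈ univ.image f then 0 else -1) := by
    intro S
    rw [prod_univ_sum, mul_sum, ← univ_inter (Fintype.piFinset _), ← sum_ite_mem]
    refine sum_congr rfl fun f _ => ?_
    rw [← compl_eq_univ_sdiff, prod_const_one, one_mul]
    split_ifs with h
    · rw [mul_comm, prod_congr (s₁ := Sᶜ) rfl (g := fun _ => -1), prod_const]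
      intro i hi
      rw [if_neg]
      simp only [mem_image, mem_univ, true_and, not_exists]
      rintro t rfl
      exact mem_compl.1 hi (Fintype.mem_piFinset.1 h t)
    · rw [Fintype.mem_piFinset, not_forall] at h
      obtain ⟨t, ht⟩ := h
      rw [prod_eq_zero (mem_compl.2 ht) (by simp), mul_zero]
  simp only [h1]
  rw [sum_comm]
  simp only [← mul_sum, ← prod_add]
  symm
  refine sum_bij_ne_zero (fun f _ hf => Equiv.ofBijective f ?_) (by simp) ?_ ?_ ?_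
  · rw [← Finite.surjective_iff_bijective]
    intro i
    have := prod_ne_zero_iff.1 (right_ne_zero_of_mul hf) i (mem_univ _)
    by_contra h
    simp [h] at this
  · intro f _ _ g _ _ h
    exact congrArg (fun e : Equiv.Perm ι => (e : ι → ι)) h
  · intro σ _ h
    have : ∀ i, ∃ a, σ a = i := σ.surjective
    exact ⟨σ, mem_univ _, by simpa [this] using h, Equiv.ext fun _ => rfl⟩
  · intro f _ hf
    have : ∀ i, ∃ a, f a = i := fun i => by
      have := prod_ne_zero_iff.1 (right_ne_zero_of_mul hf) i (mem_univ _)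
      by_contra h
      simp [h] at this
    simp [this]

theorem sum_perm (h : Finset ι → ℤ) (S : Finset ι) :
    ((Fintype.card ι).choose S.card : ℤ) * ∑ σ : Equiv.Perm ι, h (S.map σ.toEmbedding) =
      (Fintype.card ι).factorial * ∑ T ∈ powersetCard S.card univ, h T := by
  have h1 : ∀ T ∈ powersetCard S.card (univ : Finset ι),
      ∑ σ : Equiv.Perm ι, h (T.map σ.toEmbedding) = ∑ σ : Equiv.Perm ι, h (S.map σ.toEmbedding) := by
    intro T hT
    obtain ⟨τ, rfl⟩ := Equiv.Perm.exists_map_finset_eq S T (mem_powersetCard.1 hT).2.symm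
    refine Fintype.sum_equiv (Equiv.mulRight τ) _ _ fun σ => ?_
    rw [Finset.map_map]; rfl
  have h2 : ∀ σ : Equiv.Perm ι, ∑ T ∈ powersetCard S.card (univ : Finset ι),
      h (T.map σ.toEmbedding) = ∑ T ∈ powersetCard S.card univ, h T := by
    intro σ
    refine sum_bijective (fun T => T.map σ.toEmbedding) (Equiv.finsetCongr σ).bijective ?_ ?_
    · intro T; simp
    · intro T _; rfl
  have h3 := sum_congr rfl h1
  rw [sum_comm, sum_congr rfl fun σ _ => h2 σ, sum_const, sum_const, card_powersetCard, card_univ,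
    card_univ, Fintype.card_perm, nsmul_eq_mul, nsmul_eq_mul] at h3
  exact h3.symm

theorem eig {κ : Type} [Fintype κ] (V : Matrix ι κ ℝ) (Φ : κ → ℝ) (p : ℝ) (hp : 0 ≤ p)
    (h : p * (Φ ⬝ᵥ Φ) < (V *ᵥ Φ) ⬝ᵥ (V *ᵥ Φ)) :
    ∃ (μ : ℝ) (x : ι → ℝ), x ≠ 0 ∧ (V * Vᵀ) *ᵥ x = μ • x ∧ p < μ := by
  by_contra hc
  push Not at hc
  have hH : (p • (1 : Matrix ι ι ℝ) - V * Vᵀ).IsHermitian := by
    simp [Matrix.IsHermitian]
  have hP : (p • (1 : Matrix ι ι ℝ) - V * Vᵀ).PosSemidef := by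
    rw [hH.posSemidef_iff_eigenvalues_nonneg]
    intro i
    have h1 := hH.mulVec_eigenvectorBasis i
    have := hc (p - hH.eigenvalues i) (hH.eigenvectorBasis i)
      (fun h0 => hH.eigenvectorBasis.orthonormal.ne_zero i (by ext j; exact congrFun h0 j))
      (by rw [sub_smul, ← h1, sub_mulVec, smul_mulVec, one_mulVec]; abel)
    simpa using this
  have h2 := hP.dotProduct_mulVec_nonneg (V *ᵥ Φ)
  rw [star_trivial, sub_mulVec, smul_mulVec, one_mulVec, dotProduct_sub, dotProduct_smul,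
    ← mulVec_mulVec, dotProduct_mulVec _ V (Vᵀ *ᵥ _), mulVec_transpose] at h2
  have h3 : (V *ᵥ Φ) ⬝ᵥ (V *ᵥ Φ) = ((V *ᵥ Φ) ᵥ* V) ⬝ᵥ Φ := dotProduct_mulVec _ _ _
  have h4 := sum_mul_sq_le_sq_mul_sq univ ((V *ᵥ Φ) ᵥ* V) Φ
  simp only [sq] at h4
  change (((V *ᵥ Φ) ᵥ* V) ⬝ᵥ Φ) * (((V *ᵥ Φ) ᵥ* V) ⬝ᵥ Φ) ≤
    (((V *ᵥ Φ) ᵥ* V) ⬝ᵥ ((V *ᵥ Φ) ᵥ* V)) * (Φ ⬝ᵥ Φ) at h4
  have h5 : 0 ≤ Φ ⬝ᵥ Φ := sum_nonneg fun i _ => mul_self_nonneg _
  rw [← h3] at h4
  rw [smul_eq_mul] at h2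
  nlinarith [mul_nonneg hp h5]

theorem key {κ P Q : Type} [Fintype κ] [Fintype P] [Fintype Q] (v : ι → κ → ℤ) (a : P → κ → ℤ)
    (b : Q → κ → ℤ) (c : P → Q → ℤ) (S : Finset ι) :
    let Φ : (ι → κ) → ℤ := fun f => ∑ p, ∑ q, c p q * ∏ t, (if t ∈ S then a p else b q) (f t)
    (∀ σ : Equiv.Perm ι, ∑ f : ι → κ, (∏ t, v (σ t) (f t)) * Φ f =
      ∑ p, (∏ i ∈ S.map σ.toEmbedding, a p ⬝ᵥ v i) *
        ∑ q, c p q * ∏ i ∈ (S.map σ.toEmbedding)ᶜ, b q ⬝ᵥ v i) ∧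
    ∑ f, Φ f * Φ f = ∑ p, ∑ p', (a p ⬝ᵥ a p') ^ S.card *
      ∑ q, c p q * ∑ q', c p' q' * (b q ⬝ᵥ b q') ^ Sᶜ.card := by
  intro Φ
  have h : ∀ u : ι → κ → ℤ, ∑ f : ι → κ, (∏ t, u t (f t)) * Φ f =
      ∑ p, ∑ q, c p q * ((∏ t ∈ S, a p ⬝ᵥ u t) * ∏ t ∈ Sᶜ, b q ⬝ᵥ u t) := by
    intro u
    simp only [Φ, mul_sum]
    rw [sum_comm]
    refine sum_congr rfl fun p _ => ?_
    rw [sum_comm]
    refine sum_congr rfl fun q _ => ?_
    have : (∏ t ∈ S, a p ⬝ᵥ u t) * ∏ t ∈ Sᶜ, b q ⬝ᵥ u t =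
        ∏ t, ∑ k, (if t ∈ S then a p else b q) k * u t k := by
      rw [← prod_mul_prod_compl S]
      congr 1 <;> refine prod_congr rfl fun t ht => ?_
      · simp [ht, dotProduct]
      · simp [mem_compl.1 ht, dotProduct]
    rw [this, prod_univ_sum, Fintype.piFinset_univ, mul_sum]
    refine sum_congr rfl fun f _ => ?_
    rw [prod_mul_distrib]; ring
  refine ⟨fun σ => ?_, ?_⟩
  · have : (S.map σ.toEmbedding)ᶜ = Sᶜ.map σ.toEmbedding := by
      ext x; simp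
    rw [h, this]
    simp only [prod_map, mul_sum, Equiv.coe_toEmbedding]
    exact sum_congr rfl fun p _ => sum_congr rfl fun q _ => by ring
  · have : ∀ f, Φ f * Φ f =
        ∑ p, ∑ q, c p q * ((∏ t, (if t ∈ S then a p else b q) (f t)) * Φ f) := fun f => by
      simp only [← mul_assoc, ← sum_mul]; rfl
    simp only [this]
    rw [sum_comm]
    refine sum_congr rfl fun p _ => ?_
    rw [sum_comm]
    simp only [← mul_sum, h]
    simp only [mul_sum]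
    rw [sum_comm]
    refine sum_congr rfl fun p' _ => sum_congr rfl fun q _ => sum_congr rfl fun q' _ => ?_
    rw [prod_congr rfl (g := fun _ => a p ⬝ᵥ a p') (fun t ht => by simp [ht, dotProduct_comm]),
      prod_congr (s₁ := Sᶜ) rfl (g := fun _ => b q ⬝ᵥ b q')
        (fun t ht => by simp [mem_compl.1 ht, dotProduct_comm]), prod_const, prod_const]
    ring
end

def v : Fin 9 → Fin 3 → ℤ := ![![-33, -41, 85],
  ![30, -45, 84],
  ![-29, 70, -65],
  ![-42, 81, 41],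
  ![-43, 64, 64],
  ![-26, -62, -74],
  ![-34, -66, 67],
  ![-28, -88, -38],
  ![-61, -63, -48]]

def a : Fin 15 → Fin 3 → ℤ := ![![0, 0, 1],
  ![0, 1, 0],
  ![1, 0, 0],
  ![0, 1, -1],
  ![0, 1, 1],
  ![1, -1, 0],
  ![1, 0, -1],
  ![1, 0, 1],
  ![1, 1, 0],
  ![1, -1, -1],
  ![1, -1, 1],
  ![1, 1, -1],
  ![0, 1, -2],
  ![1, -2, 0],
  ![1, 0, -2]]

def b : Fin 21 → Fin 3 → ℤ := ![![0, 0, 1],
  ![0, 1, 0],
  ![1, 0, 0],
  ![0, 1, -1],
  ![0, 1, 1],
  ![1, -1, 0],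
  ![1, 0, -1],
  ![1, 0, 1],
  ![1, 1, 0],
  ![1, -1, -1],
  ![1, -1, 1],
  ![1, 1, -1],
  ![1, 1, 1],
  ![0, 1, -2],
  ![0, 1, 2],
  ![1, -2, 0],
  ![1, 0, -2],
  ![1, 0, 2],
  ![1, 2, 0],
  ![1, -2, -1],
  ![1, -1, -2]]

def c : Fin 15 → Fin 21 → ℤ := ![![252203, -237909, -2196, 1269, 63355, 1975, -1312, 1499, -297, 1209, -264, 452, -382, 1511, -8439, -893, 249, -56, 265, 166, -424],
  ![-300000, -15409, 173, 22679, -4096, -771, 448, -909, 599, 1064, -198, -175, -333, -4068, 1426, 262, -287, 507, 0, -241, -149],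
  ![-752, -6706, -2317, -204, 567, 1714, 2003, 634, 512, -1597, -321, -375, -199, 67, 14, -208, -267, -16, 20, 190, 225],
  ![159027, -2598, -968, -10866, 15694, 78, 533, -198, -426, 383, 81, 85, 380, 2042, -3996, -164, 153, 19, -18, 151, -399],
  ![24532, 8167, -275, -8674, -1192, 283, 43, -17, 58, -114, 2, 15, 8, 1036, 56, -76, 4, -7, -12, 42, 9],
  ![-2106, 3146, 844, -481, -950, -533, -979, -698, 124, 722, 196, 226, 159, 23, -31, 35, 125, 70, -102, -76, -112],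
  ![2363, 806, 1135, -559, -631, -1096, -971, 57, -646, 933, 220, 268, 155, 36, 29, 119, 106, -92, 43, -110, -123],
  ![-3084, 3952, 466, 84, -923, -321, -360, -187, -129, 281, 34, 164, 71, -30, 76, 89, -44, 13, -22, -88, 33],
  ![3163, -720, 221, 268, 419, -224, -235, -45, -52, 203, 121, -8, 28, -20, -61, -53, 104, -19, 5, 53, -98],
  ![-2551, -1366, -235, 792, 216, 175, 223, 212, 138, -165, -142, -141, -158, -90, -1, 22, -6, 24, 35, -3, 21],
  ![1712, -1569, -104, 145, 930, 52, 176, 186, 23, -117, -35, -168, -82, -4, -54, -23, 49, -13, 41, 44, -30],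
  ![-1713, 591, -33, -56, -139, 171, 51, -14, 95, -118, -153, -7, -52, -1, 40, 60, -48, 37, -7, -51, 67],
  ![-33319, 2627, -7, 2098, -6097, -11, -95, -32, 22, 77, -3, -12, -4, -412, 911, 49, -15, -1, 8, -72, 41],
  ![1597, 6, -100, -109, -36, 67, 127, 77, -86, -108, -3, 30, 23, 22, 28, -7, -41, -23, 5, 9, 32],
  ![429, 1000, -177, -34, 180, 173, 170, -102, 102, -169, 32, -29, 25, 12, -16, -51, -13, 7, -22, 44, 10]]

def g (T : Finset (Fin 9)) : ℤ := ∑ p, (∏ i ∈ T, a p ⬝ᵥ v i) * ∑ q, c p q * ∏ i ∈ Tᶜ, b q ⬝ᵥ v i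

theorem n1 : ∑ T ∈ powersetCard 4 univ, g T * g T = 18470290405287907116272666101779171373175357760 := by decide +kernel

theorem n2 : ∑ p, ∑ p', (a p ⬝ᵥ a p') ^ 4 * ∑ q, c p q * ∑ q', c p' q' * (b q ⬝ᵥ b q') ^ 5 =
    92832657908 := by decide +kernel

theorem n3 : ∑ S ∈ (univ : Finset (Fin 9)).powerset, (-1) ^ Sᶜ.card * ∏ t, ∑ i ∈ S, v i ⬝ᵥ v t =
    572885892497260839298705515644761829376 := by decide +kernel

theorem gen {n : ℕ} (v : Fin n → Fin 3 → ℤ) (Φ : (Fin n → Fin 3) → ℤ) (Z : ℤ) (h0 : 0 ≤ Z)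
    (hZ : (Matrix.of fun i j => v i ⬝ᵥ v j).permanent = Z)
    (h : Z * ∑ f, Φ f * Φ f < ∑ σ : Equiv.Perm (Fin n),
      (∑ f, (∏ t, v (σ t) (f t)) * Φ f) * (∑ f, (∏ t, v (σ t) (f t)) * Φ f)) :
    ∃ A : Matrix (Fin n) (Fin n) ℝ, A.PosSemidef ∧
      ∃ (μ : ℝ) (x : Equiv.Perm (Fin n) → ℝ), x ≠ 0 ∧ schurPower A *ᵥ x = μ • x ∧ A.permanent < μ := by
  let B : Matrix (Fin n) (Fin 3) ℝ := Matrix.of fun i k => v i k
  let V : Matrix (Equiv.Perm (Fin n)) (Fin n → Fin 3) ℝ := Matrix.of fun σ f => ∏ t, v (σ t) (f t)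
  have h1 : schurPower (B * Bᴴ) = V * Vᵀ := by
    ext σ τ
    simp only [schurPower, Matrix.of_apply, Matrix.mul_apply, prod_univ_sum, Fintype.piFinset_univ,
      prod_mul_distrib, V, B, transpose_apply, conjTranspose_apply, star_trivial]
  have h2 : (B * Bᴴ).permanent = Z := by
    rw [← hZ]; simp [Matrix.permanent, B, Matrix.mul_apply, dotProduct]
  refine ⟨B * Bᴴ, posSemidef_self_mul_conjTranspose B, ?_⟩
  rw [h1, h2]
  refine eig V (fun f => Φ f) Z (by exact_mod_cast h0) ?_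
  simp only [dotProduct, mulVec, V, Matrix.of_apply]
  exact_mod_cast h

/-- A real positive semidefinite 9 × 9 matrix whose Schur power matrix has an eigenvalue
larger than its permanent. -/
theorem result : ∃ A : Matrix (Fin 9) (Fin 9) ℝ, A.PosSemidef ∧
    ∃ (μ : ℝ) (x : Equiv.Perm (Fin 9) → ℝ),
      x ≠ 0 ∧ schurPower A *ᵥ x = μ • x ∧ A.permanent < μ := by
  obtain ⟨S, hS⟩ : ∃ S : Finset (Fin 9), S.card = 4 := ⟨{0, 1, 2, 3}, rfl⟩
  obtain ⟨k1, k2⟩ := key v a b c S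
  refine gen v _ _ ?_ ((ryser _).trans n3) (lt_of_eq_of_lt (congrArg _ k2) ?_)
  · norm_num
  have h3 := sum_perm (fun T => g T * g T) S
  rw [sum_congr rfl fun σ _ => congrArg₂ _ (k1 σ) (k1 σ), card_compl, hS, Fintype.card_fin, n2]
  rw [hS, n1, Fintype.card_fin] at h3
  unfold g at h3
  norm_num [Nat.choose, Nat.factorial] at h3 ⊢
  omega

end Pool.Agent.Results.MP_102303_co.RealPOT
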